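import Mathlib
import Pool.Agent.W823.CT.Stm

set_option autoImplicit false

namespace Pool.Agent.W12.CT.Tpos

open Pool.Agent.W823.CT

section
variable {V : Type} [Fintype V] [DecidableEq V]

omit [Fintype V] [DecidableEq V] in
lemma pr_mul (f g : V → ℝ) (e : Sym2 V) : pr (fun x => f x * g x) e = pr f e * pr g e := by
  induction e using Sym2.ind with
  | _ x y =>
    simp only [pr, Sym2.lift_mk]
    ring

omit [Fintype V] [DecidableEq V] in
lemma pr_nonneg {f : V → ℝ} (hf : ∀ x, 0 ≤ f x) (e : Sym2 V) : 0 ≤ pr f e := by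
  induction e using Sym2.ind with
  | _ x y =>
    simp only [pr, Sym2.lift_mk]
    exact mul_nonneg (hf x) (hf y)

lemma sg_cases (b : Bool) : sg b = 1 ∨ sg b = -1 := by
  cases b <;> simp [sg]

omit [Fintype V] [DecidableEq V] in
lemma pr_sg (σ : V → Bool) (e : Sym2 V) :
    pr (fun x => sg (σ x)) e = 1 ∨ pr (fun x => sg (σ x)) e = -1 := by
  induction e using Sym2.ind with
  | _ x y =>
    simp only [pr, Sym2.lift_mk]
    rcases sg_cases (σ x) with h | h <;> rcases sg_cases (σ y) with h' | h' <;> simp [h, h']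

lemma sg_beq (a b : Bool) : sg (a == b) = sg a * sg b := by
  cases a <;> cases b <;> simp [sg]

/-- twisting by `τ` -/
def tw (τ : V → Bool) : Equiv.Perm (V → Bool) :=
  Function.Involutive.toPerm (fun σ x => σ x == τ x) (by
    intro σ
    funext x
    cases h1 : σ x <;> cases h2 : τ x <;> simp [h1, h2])

omit [Fintype V] [DecidableEq V] in
lemma tw_apply (τ σ : V → Bool) (x : V) : tw τ σ x = (σ x == τ x) := rfl

lemma exp_sub_one (J s : ℝ) (hs : s = 1 ∨ s = -1) :
    Real.exp (s * J) - 1 = s * Real.sinh J + (Real.cosh J - 1) := by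
  rcases hs with rfl | rfl
  · rw [one_mul, one_mul, ← Real.cosh_add_sinh]; ring
  · rw [neg_one_mul, neg_one_mul, ← Real.cosh_sub_sinh]; ring

/-- character sums are nonnegative -/
lemma char_sum (η : Finset (Sym2 V)) :
    0 ≤ ∑ σ : V → Bool, ∏ e ∈ η, pr (fun x => sg (σ x)) e := by
  set S := ∑ σ : V → Bool, ∏ e ∈ η, pr (fun x => sg (σ x)) e with hS
  have h1 : ∀ τ : V → Bool, S * ∏ e ∈ η, pr (fun x => sg (τ x)) e = S := by
    intro τ
    rw [hS, Finset.sum_mul]
    refine Eq.trans ?_ (Equiv.sum_comp (tw τ)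
      (fun σ : V → Bool => ∏ e ∈ η, pr (fun x => sg (σ x)) e))
    refine Finset.sum_congr rfl fun σ _ => ?_
    rw [← Finset.prod_mul_distrib]
    refine Finset.prod_congr rfl fun e _ => ?_
    simp only [tw_apply, sg_beq]
    rw [pr_mul]
  have h2 : S * S = (Fintype.card (V → Bool) : ℝ) * S := by
    conv_lhs => rw [hS]
    rw [← hS, hS, Finset.mul_sum, ← hS]
    simp_rw [h1]
    rw [Finset.sum_const, Finset.card_univ, nsmul_eq_mul]
  have h3 : (0:ℝ) < (Fintype.card (V → Bool) : ℝ) := by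
    exact_mod_cast Fintype.card_pos
  have h4 : 0 ≤ S * S := mul_self_nonneg S
  rw [h2] at h4
  exact nonneg_of_mul_nonneg_right h4 h3

end

theorem tabs : S_TABS := by
  intro V _ _ F φ
  have h0 : ∀ x, |φ x| = sg (decide (0 ≤ φ x)) * φ x := by
    intro x
    by_cases h : 0 ≤ φ x
    · simp [sg, h, abs_of_nonneg h]
    · simp [sg, h, abs_of_neg (not_le.1 h)]
  unfold tF
  refine Eq.trans ?_ (Equiv.sum_comp (tw (fun x => decide (0 ≤ φ x)))
    (fun σ : V → Bool => ∏ e ∈ F, (Real.exp (pr (fun x => sg (σ x) * φ x) e) - 1)))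
  refine Finset.sum_congr rfl fun σ _ => Finset.prod_congr rfl fun e _ => ?_
  congr 3
  funext x
  simp only [tw_apply, sg_beq]
  rw [h0]
  ring

theorem tpos : S_TPOS := by
  intro V _ _ F φ
  rw [← tabs]
  set ψ : V → ℝ := fun x => |φ x| with hψ
  have hψ0 : ∀ x, 0 ≤ ψ x := fun x => abs_nonneg _
  unfold tF
  have h1 : ∀ σ : V → Bool, ∏ e ∈ F, (Real.exp (pr (fun x => sg (σ x) * ψ x) e) - 1) =
      ∑ η ∈ F.powerset, ((∏ e ∈ η, Real.sinh (pr ψ e)) * ∏ e ∈ F \ η, (Real.cosh (pr ψ e) - 1)) *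
        ∏ e ∈ η, pr (fun x => sg (σ x)) e := by
    intro σ
    have : ∀ e ∈ F, (Real.exp (pr (fun x => sg (σ x) * ψ x) e) - 1) =
        pr (fun x => sg (σ x)) e * Real.sinh (pr ψ e) + (Real.cosh (pr ψ e) - 1) := by
      intro e _
      rw [pr_mul, exp_sub_one _ _ (pr_sg σ e)]
    rw [Finset.prod_congr rfl this, Finset.prod_add]
    refine Finset.sum_congr rfl fun η _ => ?_
    rw [Finset.prod_mul_distrib]
    ring
  simp_rw [h1]
  rw [Finset.sum_comm]
  refine Finset.sum_nonneg fun η _ => ?_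
  rw [← Finset.mul_sum]
  refine mul_nonneg (mul_nonneg ?_ ?_) (char_sum η)
  · exact Finset.prod_nonneg fun e _ => Real.sinh_nonneg_iff.2 (pr_nonneg hψ0 e)
  · exact Finset.prod_nonneg fun e _ => sub_nonneg.2 (Real.one_le_cosh _)

theorem main : S_TPOS ∧ S_TABS := ⟨tpos, tabs⟩

end Pool.Agent.W12.CT.Tpos
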