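import Mathlib
import Pool.Agent.W823.CT.Stm
import Pool.Agent.W12.CT.Tpos

set_option autoImplicit false

namespace Pool.Agent.W12.CT.Cs

open Pool.Agent.W823.CT Pool.Agent.W12.CT.Tpos

lemma conn_mono {V : Type} {F S : Finset (Sym2 V)} (h : F ⊆ S) (hF : Conn F) : Conn S :=
  fun σ hσ => hF σ fun x y hxy => hσ x y (h hxy)

/-- the sum over the spins for a connected set -/
lemma spin_sum {V : Type} [Fintype V] [DecidableEq V] {S : Finset (Sym2 V)} {φ : V → ℝ}
    (hφ : ∀ x, 0 ≤ φ x) (hS : Conn S) :
    ∑ σ : V → Bool, ∏ e ∈ S, (Real.exp (pr φ e) *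
      (Real.exp (pr (fun x => sg (σ x) * φ x) e) - 1) + (Real.exp (pr φ e) - 1)) ≤
      2 * ∏ e ∈ S, (Real.exp (2 * pr φ e) - 1) := by
  set P := ∏ e ∈ S, (Real.exp (2 * pr φ e) - 1) with hP
  have hP0 : 0 ≤ P := Finset.prod_nonneg fun e _ => by
    have := pr_nonneg hφ e
    have := Real.add_one_le_exp (2 * pr φ e)
    linarith
  have hterm : ∀ (σ : V → Bool) (e : Sym2 V), Real.exp (pr φ e) *
      (Real.exp (pr (fun x => sg (σ x) * φ x) e) - 1) + (Real.exp (pr φ e) - 1) =
      Real.exp ((1 + pr (fun x => sg (σ x)) e) * pr φ e) - 1 := by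
    intro σ e
    rw [pr_mul, add_mul, one_mul, Real.exp_add]
    ring
  simp_rw [hterm]
  have hle : ∀ σ : V → Bool,
      ∏ e ∈ S, (Real.exp ((1 + pr (fun x => sg (σ x)) e) * pr φ e) - 1) ≤
      (if σ = fun _ => true then P else 0) + (if σ = fun _ => false then P else 0) := by
    intro σ
    have hr : 0 ≤ (if σ = fun _ => true then P else 0) + (if σ = fun _ => false then P else 0) := by
      split_ifs <;> linarith
    by_cases hc : ∀ x y, s(x, y) ∈ S → σ x = σ y
    · have hcon := hS σ hc
      have hprod : ∏ e ∈ S, (Real.exp ((1 + pr (fun x => sg (σ x)) e) * pr φ e) - 1) = P := by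
        rw [hP]
        refine Finset.prod_congr rfl fun e he => ?_
        have : pr (fun x => sg (σ x)) e = 1 := by
          induction e using Sym2.ind with
          | _ x y =>
            simp only [pr, Sym2.lift_mk]
            rw [hcon x y]
            rcases sg_cases (σ y) with h | h <;> simp [h]
        rw [this]
        norm_num
      rw [hprod]
      have hcase : (σ = fun _ => true) ∨ (σ = fun _ => false) := by
        by_cases hV : Nonempty V
        · obtain ⟨v⟩ := hV
          cases h : σ v
          · right
            funext x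
            rw [hcon x v, h]
          · left
            funext x
            rw [hcon x v, h]
        · left
          funext x
          exact absurd ⟨x⟩ hV
      rcases hcase with h | h
      · rw [if_pos h]
        split_ifs <;> linarith
      · rw [if_pos h]
        split_ifs <;> linarith
    · push Not at hc
      obtain ⟨x, y, hxy, hne⟩ := hc
      have : ∏ e ∈ S, (Real.exp ((1 + pr (fun x => sg (σ x)) e) * pr φ e) - 1) = 0 := by
        refine Finset.prod_eq_zero hxy ?_
        have h1 : pr (fun x => sg (σ x)) s(x, y) = -1 := by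
          simp only [pr, Sym2.lift_mk]
          cases h1 : σ x <;> cases h2 : σ y <;> simp_all [sg]
        rw [h1]
        norm_num
      rw [this]
      exact hr
  refine (Finset.sum_le_sum fun σ _ => hle σ).trans ?_
  rw [Finset.sum_add_distrib, Finset.sum_ite_eq', Finset.sum_ite_eq']
  simp only [Finset.mem_univ, if_true]
  linarith

theorem main (h1 : S_TPOS) : S_CS := by
  classical
  intro V _ _ E φ hφ
  have hJ : ∀ e, 0 ≤ pr φ e := fun e => pr_nonneg hφ e
  -- the weights
  set G : Finset (Sym2 V) → Finset (Sym2 V) → ℝ := fun F S =>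
    (∏ e ∈ F, Real.exp (pr φ e)) * (∏ e ∈ S \ F, (Real.exp (pr φ e) - 1)) * tF F φ with hG
  have hG0 : ∀ F S, 0 ≤ G F S := by
    intro F S
    refine mul_nonneg (mul_nonneg ?_ ?_) (h1 V F φ)
    · exact Finset.prod_nonneg fun e _ => (Real.exp_pos _).le
    · exact Finset.prod_nonneg fun e _ => by
        have := Real.add_one_le_exp (pr φ e)
        have := hJ e
        linarith
  -- expansion
  have hexp : ∀ F ∈ E.powerset, Real.exp (∑ e ∈ E, pr φ e) * tF F φ =
      ∑ S ∈ E.powerset.filter (fun S => F ⊆ S), G F S := by
    intro F hF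
    rw [Finset.mem_powerset] at hF
    rw [Real.exp_sum]
    have e1 : ∏ e ∈ E, Real.exp (pr φ e) = (∏ e ∈ F, Real.exp (pr φ e)) *
        ∑ T ∈ (E \ F).powerset, ∏ e ∈ T, (Real.exp (pr φ e) - 1) := by
      rw [← Finset.prod_add_one]
      simp only [sub_add_cancel]
      rw [mul_comm, Finset.prod_sdiff hF]
    rw [e1, Finset.mul_sum, Finset.sum_mul]
    refine Finset.sum_bij' (fun T _ => F ∪ T) (fun S _ => S \ F) ?_ ?_ ?_ ?_ ?_
    · intro T hT
      rw [Finset.mem_powerset] at hT
      rw [Finset.mem_filter, Finset.mem_powerset]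
      exact ⟨Finset.union_subset hF (hT.trans Finset.sdiff_subset), Finset.subset_union_left⟩
    · intro S hS
      rw [Finset.mem_filter, Finset.mem_powerset] at hS
      rw [Finset.mem_powerset]
      exact Finset.sdiff_subset_sdiff hS.1 le_rfl
    · intro T hT
      rw [Finset.mem_powerset] at hT
      ext x
      have := @hT x
      simp only [Finset.mem_sdiff, Finset.mem_union] at this ⊢
      tauto
    · intro S hS
      rw [Finset.mem_filter] at hS
      exact Finset.union_sdiff_of_subset hS.2
    · intro T hT
      rw [Finset.mem_powerset] at hT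
      simp only [hG]
      have : (F ∪ T) \ F = T := by
        ext x
        have := @hT x
        simp only [Finset.mem_sdiff, Finset.mem_union] at this ⊢
        tauto
      rw [this]
  have hmain : Real.exp (∑ e ∈ E, pr φ e) *
      ∑ F ∈ E.powerset.filter (fun F => Conn F), tF F φ ≤
      2 * Real.exp (∑ e ∈ E, pr φ e) * Real.exp (∑ e ∈ E, pr φ e) := by
    rw [Finset.mul_sum]
    have e2 : ∑ F ∈ E.powerset.filter (fun F => Conn F), Real.exp (∑ e ∈ E, pr φ e) * tF F φ =
        ∑ S ∈ E.powerset, ∑ F ∈ S.powerset.filter (fun F => Conn F), G F S := by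
      rw [Finset.sum_congr rfl (fun F hF => hexp F (Finset.mem_filter.1 hF).1)]
      refine Finset.sum_comm' ?_
      intro F S
      simp only [Finset.mem_filter, Finset.mem_powerset]
      constructor
      · rintro ⟨⟨a1, a2⟩, a3, a4⟩
        exact ⟨⟨a4, a2⟩, a3⟩
      · rintro ⟨⟨a1, a2⟩, a3⟩
        exact ⟨⟨a1.trans a3, a2⟩, a3, a1⟩
    rw [e2]
    have e3 : ∀ S ∈ E.powerset, ∑ F ∈ S.powerset.filter (fun F => Conn F), G F S ≤
        2 * ∏ e ∈ S, (Real.exp (2 * pr φ e) - 1) := by
      intro S _
      by_cases hS : Conn S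
      · calc ∑ F ∈ S.powerset.filter (fun F => Conn F), G F S
            ≤ ∑ F ∈ S.powerset, G F S :=
              Finset.sum_le_sum_of_subset_of_nonneg (Finset.filter_subset _ _)
                (fun F _ _ => hG0 F S)
          _ = ∑ σ : V → Bool, ∏ e ∈ S, (Real.exp (pr φ e) *
              (Real.exp (pr (fun x => sg (σ x) * φ x) e) - 1) + (Real.exp (pr φ e) - 1)) := by
              simp_rw [Finset.prod_add]
              rw [Finset.sum_comm]
              refine Finset.sum_congr rfl fun F _ => ?_
              simp only [hG, tF]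
              rw [Finset.mul_sum]
              refine Finset.sum_congr rfl fun σ _ => ?_
              rw [Finset.prod_mul_distrib]
              ring
          _ ≤ _ := spin_sum hφ hS
      · have : S.powerset.filter (fun F => Conn F) = ∅ := by
          rw [Finset.filter_eq_empty_iff]
          intro F hF hcF
          exact hS (conn_mono (Finset.mem_powerset.1 hF) hcF)
        rw [this, Finset.sum_empty]
        refine mul_nonneg (by norm_num) (Finset.prod_nonneg fun e _ => ?_)
        have := Real.add_one_le_exp (2 * pr φ e)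
        have := hJ e
        linarith
    refine (Finset.sum_le_sum e3).trans (le_of_eq ?_)
    rw [← Finset.mul_sum, ← Finset.prod_add_one]
    simp only [sub_add_cancel]
    rw [← Real.exp_sum, mul_assoc, ← Real.exp_add, ← Finset.mul_sum]
    congr 2
    ring
  have hpos := Real.exp_pos (∑ e ∈ E, pr φ e)
  rw [mul_comm (Real.exp _)] at hmain
  have := le_of_mul_le_mul_right hmain hpos
  convert this using 2

end Pool.Agent.W12.CT.Cs
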