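import Mathlib
import Pool.Agent.W823.CT.Stm

set_option autoImplicit false

namespace Pool.Agent.W12.CT.MM

open Pool.Agent.W823.CT

lemma nrm_eq {ι : Type} [Fintype ι] (v : ι → ℝ) : nrm v = ‖(WithLp.toLp 2 v : EuclideanSpace ℝ ι)‖ := by
  rw [EuclideanSpace.norm_eq]
  unfold nrm
  congr 1
  refine Finset.sum_congr rfl fun i _ => ?_
  rw [Real.norm_eq_abs, sq_abs]

theorem main (h1 : S_EMB) (h2 : S_GROW) (h3 : S_GREEDY) : S_MM := by
  obtain ⟨r, c, hr, hc, hg⟩ := h2
  obtain ⟨C, hC, hgr⟩ := h3 r c hr hc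
  refine ⟨7 * C, by positivity, ?_⟩
  intro ι V _ _ _ _ a ha
  have hEM : ∀ T : Finset V, 0 ≤ EM T a := fun T => (h1 ι V T a).2.1
  rcases subsingleton_or_nontrivial V with hs | hn
  · refine ⟨0, fun _ _ => 1, fun _ => 1, fun _ _ => le_rfl, fun _ => one_pos, ?_, ?_, ?_⟩
    · intro k x y _
      rw [Subsingleton.elim x y]
      simp [nrm]
    · intro x y _
      exact Subsingleton.elim x y
    · intro x
      simp only [Finset.range_zero, Finset.sum_empty]
      have := hEM Finset.univ
      positivity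
  · have hself : ∀ x : V, nrm (a x - a x) = 0 := by
      intro x
      simp [nrm]
    have hpos : ∀ x y : V, x ≠ y → 0 < nrm (a x - a y) := by
      intro x y hxy
      rw [nrm_eq, norm_pos_iff]
      intro h
      apply hxy
      apply ha
      have h4 : a x - a y = 0 := by
        have := congrArg (WithLp.ofLp) h
        simpa using this
      exact sub_eq_zero.1 h4
    have hsymm : ∀ x y : V, nrm (a x - a y) = nrm (a y - a x) := by
      intro x y
      rw [nrm_eq, nrm_eq, WithLp.toLp_sub, WithLp.toLp_sub, norm_sub_rev]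
    have htri : ∀ x y z : V, nrm (a x - a z) ≤ nrm (a x - a y) + nrm (a y - a z) := by
      intro x y z
      rw [nrm_eq, nrm_eq, nrm_eq, WithLp.toLp_sub, WithLp.toLp_sub, WithLp.toLp_sub]
      exact norm_sub_le_norm_sub_add_norm_sub _ _ _
    have hle : ∀ x y : V, nrm (a x - a y) ≤ 6 * EM Finset.univ a := fun x y =>
      (h1 ι V Finset.univ a).2.2.2.2.2 x (Finset.mem_univ _) y (Finset.mem_univ _)
    have hΔ : 0 < 6 * EM Finset.univ a := by
      obtain ⟨x, y, hxy⟩ := exists_pair_ne V
      exact lt_of_lt_of_le (hpos x y hxy) (hle x y)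
    have key := hgr V (fun x y => nrm (a x - a y)) (fun A => EM A a) (6 * EM Finset.univ a) hΔ
      hself hpos hsymm htri hle hEM (fun A B hA hAB => (h1 ι V A a).2.2.2.1 B hA hAB)
      (fun N x D δ b hN hδ k1 k2 k3 k4 => hg ι V N x D a δ b hN hδ k1 k2 k3 k4)
    have e : C * (EM Finset.univ a + 6 * EM Finset.univ a) = 7 * C * EM Finset.univ a := by ring
    rw [e] at key
    exact key

end Pool.Agent.W12.CT.MM
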